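import Pool.Agent.Helper89.OC.St1

/-!
# Project OC, module ORB: orbits of the torus
-/

set_option autoImplicit false

namespace Pool.Agent.Helper78.OC

open Pool.Agent.Helper89.OS Pool.Agent.Helper89.OC

theorem orb_mem {I : Type} [Fintype I] [DecidableEq I] {p : ℕ} (X : PD I p 1) (k i : I) :
    i ∈ Orb X k ↔ ∃ c, X.pi c k = i := by
  simp only [Orb, Finset.mem_filter, Finset.mem_univ, true_and]

theorem orb_fib {I : Type} [Fintype I] [DecidableEq I] {p : ℕ} [NeZero p] (X : PD I p 1) (k i : I)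
    (hi : i ∈ Orb X k) : (Finset.univ.filter fun c => X.pi c k = i).card =
      (Finset.univ.filter fun c => X.pi c k = k).card := by
  obtain ⟨c0, hc0⟩ := (orb_mem X k i).1 hi
  refine Finset.card_nbij' (fun c => c0⁻¹ * c) (fun c => c0 * c) ?_ ?_ ?_ ?_
  · intro c hc
    have hc' := (Finset.mem_filter.1 (Finset.mem_coe.1 hc)).2
    refine Finset.mem_coe.2 (Finset.mem_filter.2 ⟨Finset.mem_univ _, ?_⟩)
    show X.pi (c0⁻¹ * c) k = k
    rw [X.pi_mul, hc', ← hc0, ← X.pi_mul, inv_mul_cancel, X.pi_one]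
  · intro c hc
    have hc' := (Finset.mem_filter.1 (Finset.mem_coe.1 hc)).2
    refine Finset.mem_coe.2 (Finset.mem_filter.2 ⟨Finset.mem_univ _, ?_⟩)
    show X.pi (c0 * c) k = i
    rw [X.pi_mul, hc', hc0]
  · intro c _
    show c0 * (c0⁻¹ * c) = c
    rw [mul_inv_cancel_left]
  · intro c _
    show c0⁻¹ * (c0 * c) = c
    rw [inv_mul_cancel_left]

theorem orb_sum {I : Type} [Fintype I] [DecidableEq I] {p : ℕ} [NeZero p] (X : PD I p 1) (k : I)
    (F : I → ℂ) : ∑ c, F (X.pi c k) =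
      ((Finset.univ.filter fun c => X.pi c k = k).card : ℂ) * ∑ i ∈ Orb X k, F i := by
  have h1 : ∀ c ∈ (Finset.univ : Finset (ZMod (p ^ 1))ˣ), X.pi c k ∈ Orb X k := by
    intro c _
    exact (orb_mem X k _).2 ⟨c, rfl⟩
  rw [← Finset.sum_fiberwise_of_maps_to h1, Finset.mul_sum]
  refine Finset.sum_congr rfl fun i hi => ?_
  rw [← orb_fib X k i hi]
  have h2 : ∀ c ∈ (Finset.univ.filter fun c => X.pi c k = i), F (X.pi c k) = F i := by
    intro c hc
    rw [(Finset.mem_filter.1 hc).2]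
  rw [Finset.sum_congr rfl h2, Finset.sum_const, nsmul_eq_mul]

theorem orb_card {I : Type} [Fintype I] [DecidableEq I] {p : ℕ} [NeZero p] (X : PD I p 1) (k : I) :
    (Orb X k).card * (Finset.univ.filter fun c => X.pi c k = k).card = p - 1 := by
  have h1 : ∀ c ∈ (Finset.univ : Finset (ZMod (p ^ 1))ˣ), X.pi c k ∈ Orb X k := by
    intro c _
    exact (orb_mem X k _).2 ⟨c, rfl⟩
  have h2 := Finset.card_eq_sum_card_fiberwise h1
  rw [Finset.sum_congr rfl fun i hi => orb_fib X k i hi, Finset.sum_const, smul_eq_mul,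
    Finset.card_univ, ZMod.card_units_eq_totient] at h2
  have h3 : (p ^ 1).totient = p - 1 := by rw [pow_one, Nat.totient_prime X.prime]
  exact h2.symm.trans h3

theorem hORB : StORB := by
  intro I _ _ p _ X
  refine ⟨?_, ?_, ?_, ?_, ?_, ?_, ?_, orb_card X, orb_fib X, ?_⟩
  · intro c
    refine ⟨fun i j hij => ?_, fun j => ⟨X.pi c⁻¹ j, ?_⟩⟩
    · have h := congrArg (X.pi c⁻¹) hij
      simp only [← X.pi_mul, inv_mul_cancel, X.pi_one] at h
      exact h
    · rw [← X.pi_mul, mul_inv_cancel, X.pi_one]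
  · intro k
    exact (orb_mem X k k).2 ⟨1, X.pi_one k⟩
  · intro k j hj
    obtain ⟨c0, hc0⟩ := (orb_mem X k j).1 hj
    ext i
    rw [orb_mem, orb_mem]
    constructor
    · rintro ⟨c, hc⟩
      exact ⟨c * c0, by rw [X.pi_mul, hc0, hc]⟩
    · rintro ⟨c, hc⟩
      exact ⟨c * c0⁻¹, by rw [← hc0, ← X.pi_mul, inv_mul_cancel_right, hc]⟩
  · intro k j hj
    obtain ⟨c, rfl⟩ := (orb_mem X k j).1 hj
    exact X.pi_y c k
  · intro k j hj
    obtain ⟨c, rfl⟩ := (orb_mem X k j).1 hj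
    exact X.pi_d c k
  · intro k j hj ht
    obtain ⟨c, rfl⟩ := (orb_mem X k j).1 hj
    rw [X.pi_t, ht, one_pow]
  · intro k hk
    obtain ⟨c, hc⟩ := (orb_mem X k _).1 hk
    rw [← X.pi_one k, ← inv_mul_cancel c, X.pi_mul, hc, X.pi_o]
  · intro k F
    have h1 : ((Orb X k).card : ℂ) * ((Finset.univ.filter fun c => X.pi c k = k).card : ℂ) =
        (p : ℂ) - 1 := by
      rw [← Nat.cast_mul, orb_card X k, Nat.cast_sub X.prime.one_lt.le, Nat.cast_one]
    rw [orb_sum X k F, ← mul_assoc, h1]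

end Pool.Agent.Helper78.OC
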